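import Pool.Agent.Helper20.KT.X1
import Pool.Agent.Helper25.K4.Avg

set_option autoImplicit false

/-!
# Splitting the density along a partial partition

The density outside the unassigned set is the measure of the block triples minus the missing ones
plus the bad ones plus the densities inside the classes; the same for the degrees.
-/

namespace KT

open Finset KF

/-- Indicator of the unassigned vertices. -/
noncomputable def zO {V : Type} (κ : V → Option (Fin 6)) (v : V) : ℝ := b2r (κ v).isNone

/-- The weight on one class. -/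
noncomputable def wX {V : Type} (w : V → ℝ) (κ : V → Option (Fin 6)) (i : Fin 6) (v : V) : ℝ :=
  w v * b2r (decide (κ v = some i))

/-- Ordered measure of the block triples in terms of the sizes. -/
noncomputable def F6 (x : Fin 6 → ℝ) : ℝ := ∑ i, ∑ j, ∑ k, b2r (D6 i j k) * (x i * x j * x k)

/-- Ordered measure of the block pairs at a class in terms of the sizes. -/
noncomputable def P6 (x : Fin 6 → ℝ) (i : Fin 6) : ℝ := ∑ j, ∑ k, b2r (D6 i j k) * (x j * x k)

theorem b2r_dec {p : Prop} [Decidable p] : b2r (decide p) = if p then 1 else 0 := by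
  unfold b2r
  by_cases h : p <;> simp [h]

/-- Indicator of one class. -/
theorem ind_some (a i : Fin 6) : b2r (decide ((some a : Option (Fin 6)) = some i)) =
    if a = i then (1 : ℝ) else 0 := by
  rw [b2r_dec]
  by_cases h : a = i <;> simp [h]

theorem ind_none (i : Fin 6) : b2r (decide ((none : Option (Fin 6)) = some i)) = (0 : ℝ) := by
  rw [b2r_dec]
  simp

theorem dO_sum (a b c : Option (Fin 6)) : b2r (dO a b c) = ∑ i, ∑ j, ∑ k, b2r (D6 i j k) *
    (b2r (decide (a = some i)) * b2r (decide (b = some j)) * b2r (decide (c = some k))) := by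
  cases a with
  | none => simp [ind_none, dO, b2r]
  | some a =>
    cases b with
    | none => simp [ind_none, dO, b2r]
    | some b =>
      cases c with
      | none => simp [ind_none, dO, b2r]
      | some c =>
        simp only [ind_some]
        rw [Finset.sum_eq_single a (fun i _ h => by
          simp [if_neg (fun e => h e.symm : ¬ a = i)]) (by simp)]
        rw [Finset.sum_eq_single b (fun i _ h => by
          simp [if_neg (fun e => h e.symm : ¬ b = i)]) (by simp)]
        rw [Finset.sum_eq_single c (fun i _ h => by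
          simp [if_neg (fun e => h e.symm : ¬ c = i)]) (by simp)]
        simp [dO]

theorem pair_sum (i : Fin 6) (b c : Option (Fin 6)) : b2r (dO (some i) b c) = ∑ j, ∑ k,
    b2r (D6 i j k) * (b2r (decide (b = some j)) * b2r (decide (c = some k))) := by
  rw [dO_sum]
  simp only [ind_some]
  rw [Finset.sum_eq_single i (fun j _ h => by
    simp [if_neg (fun e => h e.symm : ¬ i = j)]) (by simp)]
  simp

/-- Pointwise splitting of an edge. -/
theorem split3 (a b c : Option (Fin 6)) (e : ℝ) :
    (1 - b2r a.isNone) * (1 - b2r b.isNone) * (1 - b2r c.isNone) * e =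
      b2r (dO a b c) - b2r (dO a b c) * (1 - e) + b2r (bO a b c) * e +
      ∑ i, b2r (decide (a = some i)) * b2r (decide (b = some i)) * b2r (decide (c = some i)) *
        e := by
  cases a with
  | none => simp [ind_none, dO, bO, b2r]
  | some a =>
    cases b with
    | none => simp [ind_none, dO, bO, b2r]
    | some b =>
      cases c with
      | none => simp [ind_none, dO, bO, b2r]
      | some c =>
        have h0 : ∀ a : Fin 6, b2r (Option.isNone (some a)) = 0 := fun _ => by simp [b2r]
        have h1 : ∑ i, b2r (decide ((some a : Option (Fin 6)) = some i)) *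
            b2r (decide ((some b : Option (Fin 6)) = some i)) *
            b2r (decide ((some c : Option (Fin 6)) = some i)) * e =
            if a = b ∧ b = c then e else 0 := by
          simp only [ind_some]
          rw [Finset.sum_eq_single a (fun i _ h => by
            simp [if_neg (fun e => h e.symm : ¬ a = i)]) (by simp)]
          by_cases h : a = b ∧ b = c
          · obtain ⟨rfl, rfl⟩ := h
            simp
          · rw [if_neg h]
            by_cases hb : b = a
            · have hc : ¬ c = a := fun hc => h ⟨hb.symm, hb.trans hc.symm⟩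
              simp [hc]
            · simp [hb]
        rw [h1, h0, h0, h0]
        have h2 : dO (some a) (some b) (some c) = D6 a b c := rfl
        have h3 : bO (some a) (some b) (some c) =
            (!(D6 a b c) && !(decide (a = b) && decide (b = c))) := rfl
        rw [h2, h3]
        by_cases h : a = b ∧ b = c
        · have hD : D6 a b c = false := by
            obtain ⟨rfl, rfl⟩ := h
            exact D6_K4m.irr _ _
          rw [if_pos h, hD, h.1, h.2]
          simp [b2r]
        · rw [if_neg h]
          have h4 : (decide (a = b) && decide (b = c)) = false := by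
            rw [← Bool.decide_and]
            exact decide_eq_false h
          rw [h4]
          cases D6 a b c <;> simp [b2r]

/-- Exchange of sums. -/
theorem swap31 {α β : Type} [Fintype α] [Fintype β] (g : α → α → α → β → ℝ) :
    ∑ x, ∑ y, ∑ z, ∑ i, g x y z i = ∑ i, ∑ x, ∑ y, ∑ z, g x y z i := by
  have h1 : ∀ x y, ∑ z, ∑ i, g x y z i = ∑ i, ∑ z, g x y z i := fun x y => Finset.sum_comm
  have h2 : ∀ x, ∑ y, ∑ i, ∑ z, g x y z i = ∑ i, ∑ y, ∑ z, g x y z i := fun x =>
    Finset.sum_comm
  simp only [h1, h2]
  exact Finset.sum_comm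

theorem swap21 {α β : Type} [Fintype α] [Fintype β] (g : α → α → β → ℝ) :
    ∑ y, ∑ z, ∑ i, g y z i = ∑ i, ∑ y, ∑ z, g y z i := by
  have h1 : ∀ y, ∑ z, ∑ i, g y z i = ∑ i, ∑ z, g y z i := fun y => Finset.sum_comm
  simp only [h1]
  exact Finset.sum_comm

section
variable {V : Type} [Fintype V]

/-- Products of three sums. -/
theorem tri_prod (a b c : V → ℝ) :
    ∑ x, ∑ y, ∑ z, a x * b y * c z = (∑ x, a x) * (∑ y, b y) * (∑ z, c z) := by
  rw [Finset.sum_mul_sum, Finset.sum_mul]
  refine Finset.sum_congr rfl fun x _ => ?_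
  rw [Finset.sum_mul_sum]

theorem tri_prod' (r : ℝ) (a b c : V → ℝ) :
    ∑ x, ∑ y, ∑ z, r * (a x * b y * c z) = r * ((∑ x, a x) * (∑ y, b y) * (∑ z, c z)) := by
  rw [← tri_prod]
  simp only [Finset.mul_sum]

theorem two_prod' (r : ℝ) (a b : V → ℝ) :
    ∑ x, ∑ y, r * (a x * b y) = r * ((∑ x, a x) * (∑ y, b y)) := by
  rw [Finset.sum_mul_sum]
  simp only [Finset.mul_sum]

theorem F6_eq (w : V → ℝ) (κ : V → Option (Fin 6)) :
    ∑ x, ∑ y, ∑ z, w x * w y * w z * b2r (dO (κ x) (κ y) (κ z)) = F6 (xsO w κ) := by
  have h1 : ∀ x y z, w x * w y * w z * b2r (dO (κ x) (κ y) (κ z)) =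
      ∑ i, ∑ j, ∑ k, b2r (D6 i j k) * (wX w κ i x * wX w κ j y * wX w κ k z) := by
    intro x y z
    rw [dO_sum, Finset.mul_sum]
    refine Finset.sum_congr rfl fun i _ => ?_
    rw [Finset.mul_sum]
    refine Finset.sum_congr rfl fun j _ => ?_
    rw [Finset.mul_sum]
    refine Finset.sum_congr rfl fun k _ => ?_
    unfold wX
    ring
  simp only [h1]
  rw [swap31, F6]
  refine Finset.sum_congr rfl fun i _ => ?_
  rw [swap31]
  refine Finset.sum_congr rfl fun j _ => ?_
  rw [swap31]
  refine Finset.sum_congr rfl fun k _ => ?_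
  rw [tri_prod']
  rfl

theorem P6_eq (w : V → ℝ) (κ : V → Option (Fin 6)) (i : Fin 6) :
    ∑ y, ∑ z, w y * w z * b2r (dO (some i) (κ y) (κ z)) = P6 (xsO w κ) i := by
  have h1 : ∀ y z, w y * w z * b2r (dO (some i) (κ y) (κ z)) =
      ∑ j, ∑ k, b2r (D6 i j k) * (wX w κ j y * wX w κ k z) := by
    intro y z
    rw [pair_sum, Finset.mul_sum]
    refine Finset.sum_congr rfl fun j _ => ?_
    rw [Finset.mul_sum]
    refine Finset.sum_congr rfl fun k _ => ?_
    unfold wX
    ring
  simp only [h1]
  rw [swap21, P6]
  refine Finset.sum_congr rfl fun j _ => ?_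
  rw [swap21]
  refine Finset.sum_congr rfl fun k _ => ?_
  rw [two_prod']
  rfl

/-- **Splitting of the density** outside the unassigned set. -/
theorem dens_split (E : V → V → V → Bool) (w : V → ℝ) (κ : V → Option (Fin 6)) :
    dens E (KC.wo w (zO κ)) = F6 (xsO w κ) - muO E w κ + beO E w κ + ∑ i, dens E (wX w κ i) := by
  have h1 : ∀ x y z, KC.wo w (zO κ) x * KC.wo w (zO κ) y * KC.wo w (zO κ) z * b2r (E x y z) =
      w x * w y * w z * b2r (dO (κ x) (κ y) (κ z)) -
      w x * w y * w z * (b2r (dO (κ x) (κ y) (κ z)) * (1 - b2r (E x y z))) +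
      w x * w y * w z * (b2r (bO (κ x) (κ y) (κ z)) * b2r (E x y z)) +
      ∑ i, wX w κ i x * wX w κ i y * wX w κ i z * b2r (E x y z) := by
    intro x y z
    have h := split3 (κ x) (κ y) (κ z) (b2r (E x y z))
    have h2 : ∑ i, wX w κ i x * wX w κ i y * wX w κ i z * b2r (E x y z) =
        w x * w y * w z * ∑ i, b2r (decide (κ x = some i)) * b2r (decide (κ y = some i)) *
          b2r (decide (κ z = some i)) * b2r (E x y z) := by
      rw [Finset.mul_sum]
      refine Finset.sum_congr rfl fun i _ => ?_
      unfold wX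
      ring
    rw [h2]
    unfold KC.wo zO
    calc _ = w x * w y * w z * ((1 - b2r (κ x).isNone) * (1 - b2r (κ y).isNone) *
          (1 - b2r (κ z).isNone) * b2r (E x y z)) := by ring
      _ = _ := by rw [h]; ring
  unfold KF.dens
  simp only [h1]
  simp only [Finset.sum_add_distrib, Finset.sum_sub_distrib]
  rw [F6_eq, swap31]
  rfl

/-- The bad pairs at `v` if it is put into the optional class `a`. -/
noncomputable def bo (E : V → V → V → Bool) (w : V → ℝ) (κ : V → Option (Fin 6))
    (a : Option (Fin 6)) (v : V) : ℝ :=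
  ∑ y, ∑ z, w y * w z * (b2r (bO a (κ y) (κ z)) * b2r (E v y z))

/-- The pairs at `v` inside the class `i`. -/
noncomputable def inn (E : V → V → V → Bool) (w : V → ℝ) (κ : V → Option (Fin 6))
    (i : Fin 6) (v : V) : ℝ :=
  ∑ y, ∑ z, wX w κ i y * wX w κ i z * b2r (E v y z)

/-- The pairs at `v` outside the unassigned set. -/
noncomputable def dgo (E : V → V → V → Bool) (w : V → ℝ) (κ : V → Option (Fin 6)) (v : V) : ℝ :=
  ∑ y, ∑ z, KC.wo w (zO κ) y * KC.wo w (zO κ) z * b2r (E v y z)

/-- **Splitting of the degree** outside the unassigned set. -/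
theorem dgo_split (E : V → V → V → Bool) (w : V → ℝ) (κ : V → Option (Fin 6)) (i : Fin 6)
    (v : V) :
    dgo E w κ v = P6 (xsO w κ) i - mo E w κ (some i) v + bo E w κ (some i) v + inn E w κ i v := by
  have h1 : ∀ y z, KC.wo w (zO κ) y * KC.wo w (zO κ) z * b2r (E v y z) =
      w y * w z * b2r (dO (some i) (κ y) (κ z)) -
      w y * w z * (b2r (dO (some i) (κ y) (κ z)) * (1 - b2r (E v y z))) +
      w y * w z * (b2r (bO (some i) (κ y) (κ z)) * b2r (E v y z)) +
      wX w κ i y * wX w κ i z * b2r (E v y z) := by
    intro y z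
    have h := split3 (some i) (κ y) (κ z) (b2r (E v y z))
    have h3 : ∑ j, b2r (decide ((some i : Option (Fin 6)) = some j)) *
        b2r (decide (κ y = some j)) * b2r (decide (κ z = some j)) * b2r (E v y z) =
        b2r (decide (κ y = some i)) * b2r (decide (κ z = some i)) * b2r (E v y z) := by
      simp only [ind_some]
      rw [Finset.sum_eq_single i (fun j _ h => by
        simp [if_neg (fun e => h e.symm : ¬ i = j)]) (by simp)]
      simp
    have h0 : b2r (Option.isNone (some i : Option (Fin 6))) = 0 := by simp [b2r]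
    rw [h3, h0] at h
    unfold KC.wo zO wX
    calc _ = w y * w z * ((1 - 0) * (1 - b2r (κ y).isNone) *
          (1 - b2r (κ z).isNone) * b2r (E v y z)) := by ring
      _ = _ := by rw [h]; ring
  unfold dgo
  simp only [h1]
  simp only [Finset.sum_add_distrib, Finset.sum_sub_distrib]
  rw [P6_eq]
  rfl

end

end KT
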