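import Pool.Agent.Helper41.KS.S9

set_option autoImplicit false

/-!
# Consequences of the splitting: the last inequality, and the degree identity
-/

namespace KT

open Finset KF

section
variable {V : Type} [Fintype V] {E : V → V → V → Bool} {w : V → ℝ}

theorem zO_nonneg (κ : V → Option (Fin 6)) (v : V) : 0 ≤ zO κ v := b2r_nonneg _

theorem zO_le_one (κ : V → Option (Fin 6)) (v : V) : zO κ v ≤ 1 := b2r_le_one _

theorem sum_zO (w : V → ℝ) (κ : V → Option (Fin 6)) : ∑ v, w v * zO κ v = unO w κ := rfl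

theorem wX_nonneg (hw : ∀ v, 0 ≤ w v) (κ : V → Option (Fin 6)) (i : Fin 6) (v : V) :
    0 ≤ wX w κ i v := mul_nonneg (hw v) (b2r_nonneg _)

theorem xsO_nonneg (hw : ∀ v, 0 ≤ w v) (κ : V → Option (Fin 6)) (i : Fin 6) :
    0 ≤ xsO w κ i := Finset.sum_nonneg fun v _ => wX_nonneg hw κ i v

/-- The sizes and the unassigned measure. -/
theorem sum_xsO (w : V → ℝ) (κ : V → Option (Fin 6)) :
    ∑ i, xsO w κ i = (∑ v, w v) - unO w κ := by
  unfold xsO unO
  rw [Finset.sum_comm, ← Finset.sum_sub_distrib]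
  refine Finset.sum_congr rfl fun v _ => ?_
  rw [← Finset.mul_sum]
  have : ∑ i, b2r (decide (κ v = some i)) = 1 - b2r (κ v).isNone := by
    cases κ v with
    | none => simp [ind_none, b2r]
    | some a => simp [ind_some, b2r]
  rw [this]
  ring

/-- Deficit of a class. -/
noncomputable def dfc (E : V → V → V → Bool) (w : V → ℝ) (κ : V → Option (Fin 6))
    (i : Fin 6) : ℝ := KF.dens E w * xsO w κ i ^ 3 - KF.dens E (wX w κ i)

theorem dfc_nonneg (ho : Opt E w) (κ : V → Option (Fin 6)) (i : Fin 6) : 0 ≤ dfc E w κ i := by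
  have := ho.max (wX w κ i) (fun v => wX_nonneg ho.wt.nn κ i v)
  unfold dfc
  have h : ∑ v, wX w κ i v = xsO w κ i := rfl
  rw [h] at this
  linarith

/-- The identity with the deficits. -/
theorem s9_eq (E : V → V → V → Bool) (w : V → ℝ) (κ : V → Option (Fin 6)) :
    KF.dens E (KC.wo w (zO κ)) + muO E w κ + ∑ i, dfc E w κ i =
      F6 (xsO w κ) + KF.dens E w * ∑ i, xsO w κ i ^ 3 + beO E w κ := by
  rw [dens_split]
  unfold dfc
  rw [Finset.sum_sub_distrib, ← Finset.mul_sum]
  ring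

/-- The density inequality. -/
theorem s9_le (ho : Opt E w) (κ : V → Option (Fin 6)) :
    KF.dens E w * (1 - 3 * unO w κ) + muO E w κ + ∑ i, dfc E w κ i ≤
      F6 (xsO w κ) + KF.dens E w * ∑ i, xsO w κ i ^ 3 + beO E w κ := by
  have h1 := s9_eq E w κ
  have h2 := KC.le_dens_out ho (fun v => zO_nonneg κ v) (fun v => zO_le_one κ v)
  rw [sum_zO] at h2
  linarith

/-- **The last inequality**, given the size inequality with gain `σ`. -/
theorem s9_main (ho : Opt E w) (κ : V → Option (Fin 6)) {σ : ℝ}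
    (hsz : F6 (xsO w κ) + KF.dens E w * ∑ i, xsO w κ i ^ 3 + σ ≤
      (10 + KF.dens E w) / 36 * (1 - unO w κ) ^ 3) :
    muO E w κ - beO E w κ + ∑ i, dfc E w κ i + σ +
      35 / 36 * (KF.dens E w - 2 / 7) * (1 - 3 * unO w κ) ≤
      (10 + KF.dens E w) / 12 * unO w κ ^ 2 := by
  have h1 := s9_le ho κ
  have hg : 0 ≤ unO w κ := unO_nonneg ho.wt.nn κ
  have hd : 0 ≤ KF.dens E w := dens_nonneg E ho.wt.nn
  have h3 : (1 - unO w κ) ^ 3 ≤ 1 - 3 * unO w κ + 3 * unO w κ ^ 2 := by
    nlinarith [pow_nonneg hg 3]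
  have h4 : (10 + KF.dens E w) / 36 * (1 - unO w κ) ^ 3 ≤
      (10 + KF.dens E w) / 36 * (1 - 3 * unO w κ + 3 * unO w κ ^ 2) :=
    mul_le_mul_of_nonneg_left h3 (by linarith)
  nlinarith

/-- **The contradiction**: everything is assigned and the bad triples are not more than the
missing ones. -/
theorem s9_final (ho : Opt E w) (κ : V → Option (Fin 6)) (hu : unO w κ = 0)
    (hbm : beO E w κ ≤ muO E w κ)
    (hsz : F6 (xsO w κ) + KF.dens E w * ∑ i, xsO w κ i ^ 3 ≤ (10 + KF.dens E w) / 36) :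
    KF.dens E w ≤ 2 / 7 := by
  have h := s9_main ho κ (σ := 0) (by rw [hu]; linarith)
  have h1 : 0 ≤ ∑ i, dfc E w κ i := Finset.sum_nonneg fun i _ => dfc_nonneg ho κ i
  rw [hu] at h
  nlinarith

/-! The degrees. -/

/-- The pairs at `v` touching the unassigned set. -/
noncomputable def dgz (E : V → V → V → Bool) (w : V → ℝ) (κ : V → Option (Fin 6)) (v : V) : ℝ :=
  ∑ y, ∑ z, w y * w z * ((1 - (1 - zO κ y) * (1 - zO κ z)) * b2r (E v y z))

theorem dgz_nonneg (hw : ∀ v, 0 ≤ w v) (κ : V → Option (Fin 6)) (v : V) :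
    0 ≤ dgz E w κ v := by
  refine Finset.sum_nonneg fun y _ => Finset.sum_nonneg fun z _ =>
    mul_nonneg (mul_nonneg (hw y) (hw z)) (mul_nonneg ?_ (b2r_nonneg _))
  have h1 := zO_nonneg κ y
  have h2 := zO_le_one κ y
  have h3 := zO_nonneg κ z
  have h4 := zO_le_one κ z
  nlinarith

/-- Pairs touching the unassigned set: at most twice the sum of the codegrees. -/
theorem dgz_le (hE : K4m E) (hw : ∀ v, 0 ≤ w v) (κ : V → Option (Fin 6)) (v : V) :
    dgz E w κ v ≤ 2 * ∑ y, w y * zO κ y * ∑ z, w z * b2r (E v y z) := by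
  have h1 : dgz E w κ v ≤ ∑ y, ∑ z, (w y * zO κ y * (w z * b2r (E v y z)) +
      w z * zO κ z * (w y * b2r (E v z y))) := by
    refine Finset.sum_le_sum fun y _ => Finset.sum_le_sum fun z _ => ?_
    rw [hE.s23 v z y]
    have h0 : 0 ≤ w y * w z * b2r (E v y z) :=
      mul_nonneg (mul_nonneg (hw y) (hw z)) (b2r_nonneg _)
    have h2 := mul_nonneg h0 (mul_nonneg (zO_nonneg κ y) (zO_nonneg κ z))
    nlinarith
  refine h1.trans (le_of_eq ?_)
  simp only [Finset.sum_add_distrib]
  rw [Finset.sum_comm (f := fun y z => w z * zO κ z * (w y * b2r (E v z y)))]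
  simp only [Finset.mul_sum]
  simp only [two_mul]
  simp only [Finset.sum_add_distrib]

theorem dgo_add (E : V → V → V → Bool) (w : V → ℝ) (κ : V → Option (Fin 6)) (v : V) :
    dgo E w κ v + dgz E w κ v = deg E w v := by
  unfold dgo dgz deg
  rw [← Finset.sum_add_distrib]
  refine Finset.sum_congr rfl fun y _ => ?_
  rw [← Finset.sum_add_distrib]
  refine Finset.sum_congr rfl fun z _ => ?_
  unfold KC.wo
  ring

/-- **The degree identity.** -/
theorem deg_split (ho : Opt E w) (κ : V → Option (Fin 6)) (i : Fin 6) (v : V) :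
    bo E w κ (some i) v + inn E w κ i v + dgz E w κ v =
      KF.dens E w - P6 (xsO w κ) i + mo E w κ (some i) v := by
  have h1 := dgo_add E w κ v
  rw [dgo_split E w κ i v, ho.reg v] at h1
  linarith

theorem inn_nonneg (hw : ∀ v, 0 ≤ w v) (κ : V → Option (Fin 6)) (i : Fin 6) (v : V) :
    0 ≤ inn E w κ i v :=
  Finset.sum_nonneg fun y _ => Finset.sum_nonneg fun z _ =>
    mul_nonneg (mul_nonneg (wX_nonneg hw κ i y) (wX_nonneg hw κ i z)) (b2r_nonneg _)

theorem bo_nonneg (hw : ∀ v, 0 ≤ w v) (κ : V → Option (Fin 6)) (a : Option (Fin 6)) (v : V) :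
    0 ≤ bo E w κ a v :=
  Finset.sum_nonneg fun y _ => Finset.sum_nonneg fun z _ =>
    mul_nonneg (mul_nonneg (hw y) (hw z)) (mul_nonneg (b2r_nonneg _) (b2r_nonneg _))

/-- The bad degree of a vertex is small if its missing degree is small. -/
theorem bo_le (ho : Opt E w) (κ : V → Option (Fin 6)) (i : Fin 6) (v : V) :
    bo E w κ (some i) v + inn E w κ i v ≤
      KF.dens E w - P6 (xsO w κ) i + mo E w κ (some i) v := by
  have h1 := deg_split ho κ i v
  have h2 := dgz_nonneg (E := E) ho.wt.nn κ v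
  linarith

/-- The bad measure is the integral of the bad degrees. -/
theorem beO_eq (E : V → V → V → Bool) (w : V → ℝ) (κ : V → Option (Fin 6)) :
    beO E w κ = ∑ v, w v * bo E w κ (κ v) v := by
  unfold beO bo
  refine Finset.sum_congr rfl fun x _ => ?_
  rw [Finset.mul_sum]
  refine Finset.sum_congr rfl fun y _ => ?_
  rw [Finset.mul_sum]
  refine Finset.sum_congr rfl fun z _ => by ring

/-- The missing measure is the integral of the missing degrees. -/
theorem muO_eq (E : V → V → V → Bool) (w : V → ℝ) (κ : V → Option (Fin 6)) :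
    muO E w κ = ∑ v, w v * mo E w κ (κ v) v := by
  unfold muO mo
  refine Finset.sum_congr rfl fun x _ => ?_
  rw [Finset.mul_sum]
  refine Finset.sum_congr rfl fun y _ => ?_
  rw [Finset.mul_sum]
  refine Finset.sum_congr rfl fun z _ => by ring

end

end KT
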