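import Pool.Agent.Helper64.K4.PE
import Pool.Agent.Helper20.KT.T9

set_option autoImplicit false

/-!
# The last step: from the certificate and the stability part to the bound
-/

namespace KT

open Finset KF

/-- Conclusion of the certificate: the thinned functional is negative near the optimum. -/
def CertN (lam c : ℝ) : Prop :=
  ∃ θ : ℝ, 0 < θ ∧ ∀ (n : ℕ) (E : Fin n → Fin n → Fin n → Bool) (w : Fin n → ℝ),
    Opt E w → L - θ < KF.dens E w → (2 / 7 : ℝ) < KF.dens E w →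
    Ev 7 w (fun φ => Th (pe E ((2 / 7 : ℝ) / KF.dens E w) φ) (FT (6 / 7) lam c)) < 0

/-- The partial partition given by the first part. -/
structure Part1 {V : Type} [Fintype V] (E : V → V → V → Bool) (w : V → ℝ)
    (κ : V → Option (Fin 6)) (lam c m0 W : ℝ) : Prop where
  m0n : 0 ≤ m0
  Wn : 0 ≤ W
  lt : m0 + W + lam * unO w κ < c
  mu : ∀ M : ℝ, 0 ≤ M → (∀ j k : Fin 6, ∑ i, b2r (D6 i j k) * xsO w κ i ≤ M) →
    muO E w κ ≤ m0 + 3 * M * W
  be : beO E w κ ≤ 6 * KF.dens E w * W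
  xs : ∀ i, xsO w κ i ≤ 2 * KF.dens E w

/-- The stability part: near the optimum, a partition as in the first part can be improved to a
total partition with no more bad than missing triples and with nearly equal sizes. -/
def StabN (lam c : ℝ) : Prop :=
  2 / 7 < L → ∃ θ : ℝ, 0 < θ ∧ ∀ (V : Type) [Fintype V] (E : V → V → V → Bool) (w : V → ℝ)
    (κ : V → Option (Fin 6)) (m0 W : ℝ), Opt E w → L - θ < KF.dens E w →
    (2 / 7 : ℝ) < KF.dens E w → Part1 E w κ lam c m0 W →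
    ∃ κ' : V → Option (Fin 6), unO w κ' = 0 ∧ beO E w κ' ≤ muO E w κ' ∧
      ∀ i, |tO w κ' i| ≤ 1 / 60

/-- **The last step.** -/
theorem wrap {lam c : ℝ} (hL : L ≤ 3 / 10) (hC : CertN lam c) (hS : StabN lam c) :
    L ≤ 2 / 7 := by
  by_contra hcon
  push Not at hcon
  obtain ⟨θ1, h1, hc⟩ := hC
  obtain ⟨θ2, h2, hs⟩ := hS hcon
  obtain ⟨ε, hε, e1, e2, e3⟩ : ∃ ε : ℝ, 0 < ε ∧ ε ≤ θ1 ∧ ε ≤ θ2 ∧ ε ≤ (L - 2 / 7) / 2 :=
    ⟨min θ1 (min θ2 ((L - 2 / 7) / 2)), lt_min h1 (lt_min h2 (by linarith)),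
      min_le_left _ _, (min_le_right _ _).trans (min_le_left _ _),
      (min_le_right _ _).trans (min_le_right _ _)⟩
  obtain ⟨n, E, w, ho, hd⟩ := exists_opt hε
  have hd2 : (2 / 7 : ℝ) < KF.dens E w := by linarith
  have hH := hc n E w ho (by linarith) hd2
  obtain ⟨V', iV, E', w', κ, m0, W, ho', hde, a1, a2, a3, a4, a5, a6⟩ := part1 ho hd2 hH
  rw [← hde] at a5 a6 hd hd2
  obtain ⟨κ', b1, b2, b3⟩ := hs V' E' w' κ m0 W ho' (by linarith) hd2
    ⟨a1, a2, a3, a4, a5, a6⟩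
  have h := L_le_of ho' (θ := ε) (by linarith) hε.le hL b3 b1 b2
  linarith

end KT
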